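import Pool.Agent.Helper35.HSF.StH

/-!
# HSF, module HFI: finite time, in the sphere
-/

set_option autoImplicit false

namespace Helper97.HSF

open Helper35.HSF Helper35.MS Helper35.PI Helper35.PI2 Helper32.CL
open scoped ContDiff Manifold Topology ENNReal BigOperators
open MeasureTheory Set Filter

/-! ### The change of time -/

theorem rr_sgN (n : ℕ) (hn : 1 ≤ n) (t : ℝ) : rr n (sgN n t) = Real.exp (-(2 * n * t)) := by
  have h0 : (n : ℝ) ≠ 0 := by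
    have : (1 : ℝ) ≤ n := by exact_mod_cast hn
    positivity
  unfold rr sgN
  field_simp
  ring

theorem tmN_sgN (n : ℕ) (hn : 1 ≤ n) (t : ℝ) : tmN n (sgN n t) = t := by
  have h0 : (n : ℝ) ≠ 0 := by
    have : (1 : ℝ) ≤ n := by exact_mod_cast hn
    positivity
  unfold tmN
  rw [rr_sgN n hn, Real.log_exp]
  field_simp

theorem sgN_lt (n : ℕ) (hn : 1 ≤ n) {s t : ℝ} : sgN n s < sgN n t ↔ s < t := by
  have h0 : (0 : ℝ) < n := by
    have : (1 : ℝ) ≤ n := by exact_mod_cast hn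
    linarith
  unfold sgN
  rw [div_lt_div_iff_of_pos_right (by positivity), sub_lt_sub_iff_left, Real.exp_lt_exp,
    neg_lt_neg_iff, mul_lt_mul_iff_right₀ (by positivity)]

theorem sgN_zero (n : ℕ) : sgN n 0 = 0 := by
  unfold sgN
  simp

theorem ISN_sgN (n : ℕ) (hn : 1 ≤ n) (T : ℝ) : ISN n (sgN n T) = Ico 0 T := by
  ext t
  unfold ISN
  rw [mem_ofPred_eq, mem_Ico, sgN_lt n hn]

theorem sqrt_e (n : ℕ) (t : ℝ) :
    Real.sqrt (Real.exp (-(2 * n * t))) = Real.exp (-(n * t)) := by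
  have : Real.exp (-(2 * n * t)) = Real.exp (-(n * t)) ^ 2 := by
    rw [← Real.exp_nat_mul]
    congr 1
    push_cast
    ring
  rw [this, Real.sqrt_sq (Real.exp_pos _).le]

/-- The radii of the two shrinking spheres. -/
theorem kap (n : ℕ) (hn : 1 ≤ n) (t T : ℝ) (htT : t < T)
    (h1 : Real.sqrt (2 * n * (T - t)) ≤ 1) :
    ∃ κ : ℝ, 0 ≤ κ ∧ κ ≤ 1 ∧ 1 - κ ≤ Real.sqrt (2 * n * (T - t)) ^ 2 ∧
      Real.sqrt (2 * n * (sgN n T - sgN n t)) =
        Real.exp (-(n * t)) * κ * Real.sqrt (2 * n * (T - t)) := by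
  have h0 : (0 : ℝ) < n := by
    have : (1 : ℝ) ≤ n := by exact_mod_cast hn
    linarith
  set s : ℝ := 2 * n * (T - t) with hs
  have hs0 : 0 < s := by
    have : 0 < T - t := by linarith
    positivity
  have hs1 : s ≤ 1 := by
    have h2 := Real.sq_sqrt hs0.le
    nlinarith [Real.sqrt_nonneg s]
  set m : ℝ := 1 - Real.exp (-s) with hm
  have hm1 : m ≤ s := by
    have := Real.add_one_le_exp (-s)
    linarith
  have hm2 : s * (1 - s) ≤ m := by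
    have h2 := Real.add_one_le_exp s
    have h3 : Real.exp (-s) * Real.exp s = 1 := by
      rw [← Real.exp_add]
      simp
    have h4 : Real.exp (-s) * (s + 1) ≤ 1 := by
      have h5 := mul_le_mul_of_nonneg_left h2 (Real.exp_pos (-s)).le
      rwa [h3] at h5
    have h6 : 0 ≤ 1 - Real.exp (-s) := by
      have : Real.exp (-s) ≤ 1 := Real.exp_le_one_iff.2 (by linarith)
      linarith
    have h7 : s * (1 - s) * (1 + s) ≤ m * (1 + s) := by
      have e1 : m * (1 + s) = (1 + s) - Real.exp (-s) * (s + 1) := by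
        rw [hm]; ring
      rw [e1]
      nlinarith [mul_pos hs0 hs0, mul_pos (mul_pos hs0 hs0) hs0]
    exact le_of_mul_le_mul_right h7 (by linarith)
  have hm0 : 0 ≤ m := le_trans (mul_nonneg hs0.le (by linarith)) hm2
  have hE : 2 * n * (sgN n T - sgN n t) = Real.exp (-(n * t)) ^ 2 * m := by
    have e1 : Real.exp (-(2 * n * T)) = Real.exp (-(2 * n * t)) * Real.exp (-s) := by
      rw [← Real.exp_add]
      congr 1
      rw [hs]
      ring
    have e2 : Real.exp (-(2 * n * t)) = Real.exp (-(n * t)) ^ 2 := by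
      rw [← Real.exp_nat_mul]
      congr 1
      push_cast
      ring
    unfold sgN
    rw [e1, ← e2, hm]
    field_simp
    ring
  refine ⟨Real.sqrt (m / s), Real.sqrt_nonneg _, ?_, ?_, ?_⟩
  · exact Real.sqrt_le_iff.2 ⟨zero_le_one, by rw [one_pow]; exact (div_le_one hs0).2 hm1⟩
  · rw [Real.sq_sqrt hs0.le]
    have h5 : 1 - s ≤ Real.sqrt (m / s) := by
      refine Real.le_sqrt_of_sq_le ?_
      rw [le_div_iff₀ hs0]
      nlinarith
    linarith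
  · rw [hE, Real.sqrt_mul (by positivity), Real.sqrt_sq (Real.exp_pos _).le, mul_assoc,
      ← Real.sqrt_mul (by positivity), div_mul_cancel₀ _ hs0.ne']

/-- The vectors `1/r` and `R`. -/
theorem xdiff {V : Type} [NormedAddCommGroup V] [NormedSpace ℝ V] (n : ℕ) (t T : ℝ)
    (htT : t ≤ T) (x : V) (hx : ‖x‖ = Real.exp (-(n * T))) :
    ‖((Real.exp (-(n * t)))⁻¹ - Real.exp (n * T)) • x‖ ≤
      Real.sqrt (2 * n * (T - t)) ^ 2 / 2 := by
  have h0 : (0 : ℝ) ≤ n := Nat.cast_nonneg n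
  have hu : 0 ≤ T - t := by linarith
  rw [Real.sq_sqrt (by positivity), norm_smul, hx, Real.norm_eq_abs, ← Real.exp_neg, neg_neg,
    abs_of_nonpos]
  · have e1 : -(Real.exp (n * t) - Real.exp (n * T)) * Real.exp (-(n * T)) =
        Real.exp (n * T) * Real.exp (-(n * T)) - Real.exp (n * t) * Real.exp (-(n * T)) := by
      ring
    rw [e1, ← Real.exp_add, ← Real.exp_add, add_neg_cancel, Real.exp_zero]
    have h2 := Real.add_one_le_exp (n * t + -(n * T))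
    linarith
  · have : Real.exp (n * t) ≤ Real.exp (n * T) :=
      Real.exp_le_exp.2 (mul_le_mul_of_nonneg_left htT h0)
    linarith

/-- The error terms. -/
theorem err1 {V : Type} [NormedAddCommGroup V] [NormedSpace ℝ V] (y x p : V)
    (r R κ σ ε : ℝ) (hr : 0 < r) (_hκ0 : 0 ≤ κ) (hκ1 : κ ≤ 1) (hκ : 1 - κ ≤ σ ^ 2)
    (hσ0 : 0 ≤ σ) (hσ1 : σ ≤ 1) (hε : 0 ≤ ε) (hp : ‖p‖ = 1)
    (hx : ‖(r⁻¹ - R) • x‖ ≤ σ ^ 2 / 2) (h : ‖r • y - x - (r * κ * σ) • p‖ ≤ ε * (r * κ * σ)) :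
    ‖y - R • x - σ • p‖ ≤ (ε + 3 / 2 * σ) * σ := by
  have e1 : y - R • x - σ • p = r⁻¹ • (r • y - x - (r * κ * σ) • p) + (r⁻¹ - R) • x +
      ((κ - 1) * σ) • p := by
    rw [smul_sub, smul_sub, smul_smul, smul_smul, inv_mul_cancel₀ hr.ne', one_smul, sub_smul]
    have e2 : r⁻¹ * (r * κ * σ) = κ * σ := by field_simp
    rw [e2, sub_mul, one_mul, sub_smul]
    abel
  have h2 : ‖r⁻¹ • (r • y - x - (r * κ * σ) • p)‖ ≤ ε * σ := by
    rw [norm_smul, Real.norm_of_nonneg (by positivity)]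
    calc r⁻¹ * ‖r • y - x - (r * κ * σ) • p‖ ≤ r⁻¹ * (ε * (r * κ * σ)) :=
          mul_le_mul_of_nonneg_left h (by positivity)
      _ = ε * (κ * σ) := by field_simp
      _ ≤ ε * (1 * σ) := by gcongr
      _ = ε * σ := by ring
  have h3 : ‖((κ - 1) * σ) • p‖ ≤ σ ^ 2 * σ := by
    rw [norm_smul, hp, mul_one, Real.norm_eq_abs, abs_mul, abs_of_nonneg hσ0,
      abs_of_nonpos (by linarith)]
    exact mul_le_mul_of_nonneg_right (by linarith) hσ0
  rw [e1]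
  have h4 := norm_add₃_le (a := r⁻¹ • (r • y - x - (r * κ * σ) • p)) (b := (r⁻¹ - R) • x)
    (c := ((κ - 1) * σ) • p)
  have h5 : σ ^ 2 * σ ≤ σ * σ := by nlinarith [mul_nonneg hσ0 hσ0]
  nlinarith

theorem err2 {V : Type} [NormedAddCommGroup V] [NormedSpace ℝ V] (y x : V)
    (r R κ σ ε : ℝ) (hr : 0 < r) (_hκ0 : 0 ≤ κ) (hκ1 : κ ≤ 1) (hκ : 1 - κ ≤ σ ^ 2)
    (hσ0 : 0 ≤ σ) (hσ1 : σ ≤ 1) (hε : 0 ≤ ε)
    (hx : ‖(r⁻¹ - R) • x‖ ≤ σ ^ 2 / 2)
    (h : |‖r • y - x‖ - r * κ * σ| ≤ ε * (r * κ * σ)) :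
    |‖y - R • x‖ - σ| ≤ (ε + 3 / 2 * σ) * σ := by
  have e1 : y - R • x = r⁻¹ • (r • y - x) + (r⁻¹ - R) • x := by
    rw [smul_sub, smul_smul, inv_mul_cancel₀ hr.ne', one_smul, sub_smul]
    abel
  have h2 : |‖r⁻¹ • (r • y - x)‖ - κ * σ| ≤ ε * σ := by
    have e2 : ‖r⁻¹ • (r • y - x)‖ - κ * σ = r⁻¹ * (‖r • y - x‖ - r * κ * σ) := by
      rw [norm_smul, Real.norm_of_nonneg (by positivity : 0 ≤ r⁻¹)]
      field_simp
    rw [e2, abs_mul, abs_of_nonneg (by positivity : 0 ≤ r⁻¹)]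
    calc r⁻¹ * |‖r • y - x‖ - r * κ * σ| ≤ r⁻¹ * (ε * (r * κ * σ)) :=
          mul_le_mul_of_nonneg_left h (by positivity)
      _ = ε * (κ * σ) := by field_simp
      _ ≤ ε * (1 * σ) := by gcongr
      _ = ε * σ := by ring
  have h3 : |‖y - R • x‖ - ‖r⁻¹ • (r • y - x)‖| ≤ σ ^ 2 / 2 := by
    rw [e1]
    refine (abs_norm_sub_norm_le _ _).trans ?_
    rw [add_sub_cancel_left]
    exact hx
  have h5 : σ ^ 2 * σ ≤ σ * σ := by nlinarith [mul_nonneg hσ0 hσ0]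
  have h6 : (1 - κ) * σ ≤ σ ^ 2 * σ := mul_le_mul_of_nonneg_right hκ hσ0
  have h7 : 0 ≤ (1 - κ) * σ := mul_nonneg (by linarith) hσ0
  rw [abs_le] at h2 h3 ⊢
  constructor <;> nlinarith

theorem err3 (κ σ ε a : ℝ) (hκ1 : κ ≤ 1) (hκ : 1 - κ ≤ σ ^ 2)
    (hσ0 : 0 ≤ σ) (hσ1 : σ ≤ 1 / 4) (_hε : 0 ≤ ε) (hε1 : ε ≤ 1 / 2) (ha : 0 ≤ a)
    (h : |κ * a - 1| ≤ ε) : |a - 1| ≤ ε + 4 * σ ^ 2 := by
  have h1 : 1 / 2 ≤ κ := by nlinarith
  have h2 := (abs_le.1 h).2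
  have h3 := (abs_le.1 h).1
  have h4 : a ≤ 4 := by nlinarith
  have h5 : (1 - κ) * a ≤ σ ^ 2 * 4 := mul_le_mul hκ h4 ha (sq_nonneg σ)
  have h6 : 0 ≤ (1 - κ) * a := mul_nonneg (by linarith) ha
  rw [abs_le]
  constructor <;> nlinarith

/-! ### Scaling of tangent vectors -/

section Scal

variable {n N : ℕ} {M : Type} [TopologicalSpace M] [ChartedSpace (EE n) M]

theorem gn_scal (F : M → ℝ → EE N) (q : M) (t a : ℝ) (c : Fin n → ℝ) :
    gn F q t (fun i => a * c i) = a ^ 2 * gn F q t c := by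
  unfold gn
  have : tv F q t (fun i => a * c i) = a • tv F q t c := by
    unfold tv
    rw [Finset.smul_sum]
    refine Finset.sum_congr rfl fun i _ => ?_
    rw [smul_smul]
  rw [this, norm_smul, mul_pow, Real.norm_eq_abs, sq_abs]

theorem hn_scal (F ν : M → ℝ → EE N) (q : M) (t a : ℝ) (c : Fin n → ℝ) :
    hn F ν q t (fun i => a * c i) = a ^ 2 * hn F ν q t c := by
  unfold hn
  have : An F q t (fun i => a * c i) = (a ^ 2) • An F q t c := by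
    unfold An
    rw [Finset.smul_sum]
    refine Finset.sum_congr rfl fun i _ => ?_
    rw [Finset.smul_sum]
    refine Finset.sum_congr rfl fun j _ => ?_
    rw [smul_smul]
    congr 1
    ring
  rw [this, real_inner_smul_left]

end Scal

/-- **HFI**. -/
theorem hHFI (hPNA : StPNA) (hFFT : StFFT) (hCNN : StCNN) (hHMN : StHMN) (hHSN : StHSN)
    (hCTN : StCTN) (hNUX : StNUX) : StHFI := by
  intro n hn2 M _ _ _ _ _ _ F ν₀ T hT hS hU0 hP1 hunb
  have hn1 : 1 ≤ n := by omega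
  have hnR : (1 : ℝ) ≤ n := by exact_mod_cast hn1
  have hn0 : (0 : ℝ) < n := by linarith
  set TE : ℝ := sgN n T with hTE
  have hIS : ISN n TE = Ico 0 T := ISN_sgN n hn1 T
  have hTE0 : 0 < TE := by
    rw [hTE, ← sgN_zero n, sgN_lt n hn1]
    exact hT
  have hTE1 : 2 * n * TE < 1 := by
    have h1 := rr_sgN n hn1 T
    unfold rr at h1
    have h2 := Real.exp_pos (-(2 * n * T))
    rw [← h1] at h2
    linarith
  have hS' : SMCF n (ISN n TE) F := by rw [hIS]; exact hS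
  have hud : UniqueDiffOn ℝ (Ico 0 T) := uniqueDiffOn_Ico 0 T
  obtain ⟨ν, hν, hν0⟩ := hNUX n hn1 M (Ico 0 T) F ν₀ hud ⟨le_rfl, hT⟩ hS hU0
  have hν' : UNI n (ISN n TE) F ν := by rw [hIS]; exact hν
  have hmn := hHMN n hn1 M (Ico 0 T) F ν hS hν
  have hnorm : ∀ q, ∀ t ∈ Ico 0 T, ∀ u : Fin n → ℝ,
      ‖∑ i, ∑ j, (u i * u j) • hM (n := n) F q t i j‖ = |hn F ν q t u| := by
    intro q t ht u
    rw [(hmn q t ht u).2, norm_smul, hν.nν q t ht, mul_one, Real.norm_eq_abs]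
  have hpin : ∀ q, ∀ c : Fin n → ℝ, gn F q 0 c = 1 → |hn F ν q 0 c| < 1 := by
    intro q c hc
    have h0 : (0 : ℝ) ∈ Ico 0 T := ⟨le_rfl, hT⟩
    have h1 := hP1 q c (by rw [(hmn q 0 h0 c).1]; exact hc)
    rw [hnorm q 0 h0 c] at h1
    exact (sq_lt_one_iff₀ (abs_nonneg _)).1 h1
  obtain ⟨hinj, k, t₁, hk0, hk1, ht₁, hPK⟩ := hPNA n hn2 M F ν TE hTE0 hTE1.le hS' hν' hpin
  obtain ⟨hfl, hC⟩ := hCNN n hn1 M F ν TE hTE0 hTE1.le hS' hν'
  obtain ⟨hfr, hcont⟩ := hCTN n (n + 2) M (Ico 0 T) F hS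
  obtain ⟨-, -, hAc⟩ := hcont hud
  -- the sphere
  have hsph : ∀ t ∈ Ico 0 T, ∀ q,
      hS2 (n := n) F q t = AA (n := n) F q t - n ∧ 0 ≤ hS2 (n := n) F q t := by
    intro t ht q
    obtain ⟨hI, hE⟩ := hfr t ht
    obtain ⟨-, -, -, a4, a5, -⟩ := hHSN n (n + 2) hn1 M univ (fun q (_ : ℝ) => F q t) hI 0
      (mem_univ _) (fun q => hS.sph q t ht) q
    obtain ⟨-, b2, -, b5⟩ := hE q 0
    rw [b5, b2] at a4
    rw [b5] at a5
    exact ⟨a4, a5⟩
  -- the rescaled flow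
  have hpt : ∀ t ∈ Ico 0 T, sgN n t ∈ Ico 0 TE ∧
      (∀ q, FEN n F q (sgN n t) = Real.exp (-(n * t)) • F q t) ∧
      ∀ q, AA (n := n) (FEN n F) q (sgN n t) = AA (n := n) F q t / Real.exp (-(2 * n * t)) ∧
      ∀ c : Fin n → ℝ, gn (FEN n F) q (sgN n t) c = Real.exp (-(2 * n * t)) * gn F q t c ∧
        hn (FEN n F) (nuN n ν) q (sgN n t) c = Real.exp (-(n * t)) * hn F ν q t c := by
    intro t ht
    have hmem : sgN n t ∈ Ico 0 TE := by
      refine ⟨?_, (sgN_lt n hn1).2 ht.2⟩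
      rcases eq_or_lt_of_le ht.1 with h | h
      · rw [← h, sgN_zero]
      · rw [← sgN_zero n]
        exact ((sgN_lt n hn1).2 h).le
    refine ⟨hmem, ?_, ?_⟩
    · intro q
      unfold FEN
      rw [rr_sgN n hn1, tmN_sgN n hn1, sqrt_e]
    · intro q
      obtain ⟨-, -, -, h4⟩ := hC (sgN n t) hmem
      obtain ⟨h5, h6⟩ := h4 q
      rw [rr_sgN n hn1, tmN_sgN n hn1] at h5
      refine ⟨h5, fun c => ?_⟩
      obtain ⟨h7, h8⟩ := h6 c
      rw [rr_sgN n hn1, tmN_sgN n hn1] at h7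
      rw [rr_sgN n hn1, tmN_sgN n hn1, sqrt_e] at h8
      exact ⟨h7, h8⟩
  -- unbounded
  have hUnb : ∀ C t₀ : ℝ, t₀ < TE → ∃ t ∈ Ioo 0 TE, t₀ < t ∧ ∃ q,
      C < AA (n := n) (FEN n F) q t := by
    intro C τ₀ hτ₀
    set τ₁ : ℝ := max τ₀ (TE / 2) with hτ₁
    have hτ₁m : τ₁ ∈ Ico 0 TE := by
      refine ⟨le_trans (by positivity) (le_max_right _ _), max_lt hτ₀ (by linarith)⟩
    obtain ⟨h1, h2, -⟩ := hC τ₁ hτ₁m
    rw [hIS] at h1
    set s₁ : ℝ := tmN n τ₁ with hs₁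
    have hcomp : IsCompact ((univ : Set M) ×ˢ Icc 0 s₁) := isCompact_univ.prod isCompact_Icc
    have hsub : (univ : Set M) ×ˢ Icc 0 s₁ ⊆ univ ×ˢ Ico 0 T := by
      intro z hz
      exact ⟨mem_univ _, hz.2.1, lt_of_le_of_lt hz.2.2 h1.2⟩
    obtain ⟨B, hB⟩ := hcomp.exists_bound_of_continuousOn (hAc.mono hsub)
    obtain ⟨t, ht, q, hq⟩ := hunb (max B C)
    obtain ⟨s2, s3⟩ := hsph t ht q
    have htt : s₁ < t := by
      by_contra hcon
      push Not at hcon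
      have h3 := hB (q, t) ⟨mem_univ _, ht.1, hcon⟩
      rw [Real.norm_eq_abs] at h3
      have h4 := (abs_le.1 h3).2
      have h5 : B < hS2 (n := n) F q t := lt_of_le_of_lt (le_max_left _ _) hq
      change AA (n := n) F q t ≤ B at h4
      linarith
    obtain ⟨hm, -, hq'⟩ := hpt t ht
    obtain ⟨p3, -⟩ := hq' q
    have hτt : τ₁ < sgN n t := by
      rw [← h2]
      exact (sgN_lt n hn1).2 htt
    refine ⟨sgN n t, ⟨lt_of_le_of_lt hτ₁m.1 hτt, hm.2⟩,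
      lt_of_le_of_lt (le_max_left _ _) hτt, q, ?_⟩
    have h7 : C < hS2 (n := n) F q t := lt_of_le_of_lt (le_max_right _ _) hq
    have hE0 : 0 < Real.exp (-(2 * n * t)) := Real.exp_pos _
    have hE1 : Real.exp (-(2 * n * t)) ≤ 1 :=
      Real.exp_le_one_iff.2 (by
        have := mul_nonneg (mul_nonneg zero_le_two hn0.le) ht.1
        linarith)
    have hA0 : 0 ≤ AA (n := n) F q t := by linarith
    have hAle : AA (n := n) F q t ≤ AA (n := n) F q t / Real.exp (-(2 * n * t)) := by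
      rw [le_div_iff₀ hE0]
      nlinarith
    rw [p3]
    linarith
  obtain ⟨xE, hxE, hconv⟩ := hFFT n hn2 M TE (FEN n F) (nuN n ν) hfl hTE1 k t₁ hk0 hk1 ht₁
    hPK hUnb
  have hxn : ‖xE‖ = Real.exp (-(n * T)) := by
    rw [hTE, rr_sgN n hn1] at hxE
    rw [← sqrt_e, ← hxE, Real.sqrt_sq (norm_nonneg _)]
  refine ⟨fun t ht => hinj t (by rw [hIS]; exact ht), Real.exp (n * T) • xE, ?_, ?_⟩
  · rw [norm_smul, hxn, Real.norm_of_nonneg (Real.exp_pos _).le, ← Real.exp_add,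
      add_neg_cancel, Real.exp_zero]
  intro η hη
  set η₁ : ℝ := min η 1 with hη₁
  have hη₁0 : 0 < η₁ := lt_min hη one_pos
  have hη₁1 : η₁ ≤ 1 := min_le_right _ _
  have hη₁η : η₁ ≤ η := min_le_left _ _
  obtain ⟨τ₂, hτ₂, hcv⟩ := hconv (η₁ / 2) (by linarith)
  have hτ₂m : τ₂ ∈ Ico 0 TE := ⟨ht₁.1.le.trans hτ₂.1, hτ₂.2⟩
  obtain ⟨hm1, hm2, -⟩ := hC τ₂ hτ₂m
  rw [hIS] at hm1
  have hδ : 0 < (η₁ / 4) ^ 2 / (2 * n) := by positivity
  refine ⟨max (tmN n τ₂) (T - (η₁ / 4) ^ 2 / (2 * n)),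
    ⟨hm1.1.trans (le_max_left _ _), max_lt hm1.2 (by linarith)⟩, ?_⟩
  intro t ht σ hσ
  have ht2 : tmN n τ₂ ≤ t := (le_max_left _ _).trans ht.1
  have ht3 : T - (η₁ / 4) ^ 2 / (2 * n) ≤ t := (le_max_right _ _).trans ht.1
  have htm : t ∈ Ico 0 T := ⟨hm1.1.trans ht2, ht.2⟩
  have hσ0 : 0 ≤ σ := by rw [hσ]; exact Real.sqrt_nonneg _
  have hσ1 : σ ≤ η₁ / 4 := by
    rw [hσ]
    refine Real.sqrt_le_iff.2 ⟨by linarith, ?_⟩
    have h1 : T - t ≤ (η₁ / 4) ^ 2 / (2 * n) := by linarith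
    rw [le_div_iff₀ (by positivity)] at h1
    linarith
  obtain ⟨κ, hκ0, hκ1, hκ2, hκ3⟩ := kap n hn1 t T htm.2 (by rw [← hσ]; linarith)
  rw [← hσ] at hκ2 hκ3
  have hxd := xdiff n t T htm.2.le xE hxn
  rw [← hσ] at hxd
  set r : ℝ := Real.exp (-(n * t)) with hr
  have hr0 : 0 < r := Real.exp_pos _
  have hrr : Real.exp (-(2 * n * t)) = r ^ 2 := by
    rw [hr, ← Real.exp_nat_mul]
    congr 1
    push_cast
    ring
  obtain ⟨hsm, hFEq, hq'⟩ := hpt t htm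
  have hsI : sgN n t ∈ Ico τ₂ TE := by
    refine ⟨?_, hsm.2⟩
    rw [← hm2]
    rcases eq_or_lt_of_le ht2 with h | h
    · rw [← h]
    · exact ((sgN_lt n hn1).2 h).le
  obtain ⟨c1, c2⟩ := hcv (sgN n t) hsI (r * κ * σ) (by rw [hTE]; exact hκ3.symm)
  have hR0 : 0 < Real.exp (n * T) := Real.exp_pos _
  have hη2 : (η₁ / 2 + 3 / 2 * σ) * σ ≤ η * σ :=
    mul_le_mul_of_nonneg_right (by linarith) hσ0
  have hperp : ∀ p : EE (n + 2), (inner ℝ p (Real.exp (n * T) • xE) : ℝ) = 0 ↔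
      (inner ℝ p xE : ℝ) = 0 := by
    intro p
    rw [real_inner_smul_right]
    constructor
    · intro h
      exact (mul_eq_zero.1 h).resolve_left hR0.ne'
    · intro h
      rw [h, mul_zero]
  refine ⟨fun q => ?_, ?_⟩
  · obtain ⟨a1, a2, p, hp1, hp2, hp3⟩ := c1 q
    rw [hFEq q] at a1 hp3
    refine ⟨?_, ?_, p, (hperp p).2 hp1, hp2, ?_⟩
    · exact (err2 (F q t) xE r (Real.exp (n * T)) κ σ (η₁ / 2) hr0 hκ0 hκ1 hκ2 hσ0
        (by linarith) (by linarith) hxd a1).trans hη2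
    · intro u hu
      rw [hnorm q t htm u]
      rw [(hmn q t htm u).1] at hu
      obtain ⟨b1, b2⟩ := (hq' q).2 (fun i => r⁻¹ * u i)
      rw [gn_scal F, hu, hrr] at b1
      rw [hn_scal F] at b2
      have b3 := a2 (fun i => r⁻¹ * u i) (by rw [b1]; field_simp)
      rw [b2] at b3
      have e1 : r * κ * σ * |r * (r⁻¹ ^ 2 * hn F ν q t u)| = κ * (σ * |hn F ν q t u|) := by
        rw [abs_mul, abs_mul, abs_of_pos hr0, abs_of_nonneg (by positivity : 0 ≤ r⁻¹ ^ 2)]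
        field_simp
      rw [e1] at b3
      have h5 := err3 κ σ (η₁ / 2) (σ * |hn F ν q t u|) hκ1 hκ2 hσ0 (by linarith)
        (by linarith) (by linarith) (mul_nonneg hσ0 (abs_nonneg _)) b3
      refine h5.trans ?_
      nlinarith
    · exact (err1 (F q t) xE p r (Real.exp (n * T)) κ σ (η₁ / 2) hr0 hκ0 hκ1 hκ2 hσ0
        (by linarith) (by linarith) hp2 hxd hp3).trans hη2
  · intro p hp1 hp2
    obtain ⟨q, hq⟩ := c2 p ((hperp p).1 hp1) hp2
    rw [hFEq q] at hq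
    exact ⟨q, (err1 (F q t) xE p r (Real.exp (n * T)) κ σ (η₁ / 2) hr0 hκ0 hκ1 hκ2 hσ0
      (by linarith) (by linarith) hp2 hxd hq).trans hη2⟩

end Helper97.HSF
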