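import Pool.Agent.Helper35.HSF.StD

/-!
Project HSF (MP_925021_gt), module HZR: in the infinite time case the mean curvature tends to zero.
The quantity `A(t) = area(t) * rr^(-n/2)` is nonincreasing and bounded below; the mean value inequality
gives the pointwise bound.
-/

set_option autoImplicit false

namespace Helper97.HSF

open Helper35.HSF Helper35.MS Helper35.PI Helper35.PI2 Helper32.CL
open scoped ContDiff Manifold Topology ENNReal BigOperators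
open MeasureTheory Set Filter

private theorem slice_cont {n : ℕ} {M : Type} [TopologicalSpace M] [ChartedSpace (EE n) M]
    {J : Set ℝ} {u : M → ℝ → ℝ} (h : SmJ n J u) {t : ℝ} (ht : t ∈ J) :
    Continuous (fun q => u q t) := by
  have h1 : ContinuousOn (fun z : M × ℝ => u z.1 z.2) (univ ×ˢ J) := h.continuousOn
  have h2 : Continuous (fun q : M => (q, t)) := by fun_prop
  exact h1.comp_continuous h2 (fun q => ⟨mem_univ _, ht⟩)

private theorem rr_deriv (n : ℕ) (t : ℝ) : HasDerivAt (rr n) (-(2 * n)) t := by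
  have h := ((hasDerivAt_id t).const_mul (2 * (n : ℝ))).const_sub 1
  simp only [id, mul_one] at h
  exact h

private theorem A_deriv (n : ℕ) (a : ℝ → ℝ) (a' t : ℝ) (ha : HasDerivAt a a' t)
    (hr : 0 < rr n t) :
    HasDerivAt (fun t => a t * rr n t ^ (-(n : ℝ) / 2))
      (-(rr n t ^ (-(n : ℝ) / 2) * (-a' - n ^ 2 / rr n t * a t))) t := by
  have h1 := (rr_deriv n t).rpow_const (p := -(n : ℝ) / 2) (Or.inl hr.ne')
  have h2 := ha.mul h1
  refine h2.congr_deriv ?_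
  rw [Real.rpow_sub_one hr.ne']
  field_simp
  ring

/-- HZR -/
theorem hHZR (hMVN : StMVN) (hARE : StARE) (hEVF : StEVF) (hSMF : StSMF) (hHTR : StHTR)
    (hMUJ : StMUJ) (hV5 : StV5) : StHZR := by
  intro n hn M _ _ _ _ _ _ T F ν hF hT t₁ Λ ht₁ hΛ ε hε
  classical
  letI : MeasurableSpace M := borel M
  haveI : BorelSpace M := ⟨rfl⟩
  haveI : SecondCountableTopology M :=
    ChartedSpace.secondCountable_of_sigmaCompact (EE n) M
  obtain ⟨c, χ, hpu⟩ := hV5 n M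
  have hS : SetupF n (Ioo 0 T) F c χ := ⟨hF.mcf, hpu⟩
  have hImm := hF.mcf.toIsImmJ
  obtain ⟨Cn, hCn, hMV⟩ := hMVN n hn
  obtain ⟨-, -, -, hsH, -, -, -, hsE⟩ := hSMF n (n + 2) M (Ioo 0 T) F hImm
  obtain ⟨hsHs, -, hev⟩ := hEVF n hn M (Ioo 0 T) F ν hF
  obtain ⟨⟨hsq, htr⟩, -, -, -⟩ := hHTR n (n + 2) M (Ioo 0 T) F hImm (Hs n F ν) (Hs n F ν) hsHs hsHs
  obtain ⟨s, -, hmu⟩ := hMUJ n (n + 2) M (Ioo 0 T) F c χ hS.toJ
  have hn0 : (0 : ℝ) < n := by exact_mod_cast hn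
  have hT0 : 0 < T := ht₁.1.trans ht₁.2
  have hrr : ∀ t, rr n t = 2 * n * (T - t) := by
    intro t
    unfold rr
    linarith
  -- the function A
  obtain ⟨a, ha⟩ : ∃ a : ℝ → ℝ, a = fun t => (muM n F c χ t).real univ := ⟨_, rfl⟩
  obtain ⟨I, hI⟩ : ∃ I : ℝ → ℝ, I = fun t => ∫ q, Hs n F ν q t * Hs n F ν q t ∂muM n F c χ t :=
    ⟨_, rfl⟩
  obtain ⟨A, hA⟩ : ∃ A : ℝ → ℝ, A = fun t => a t * rr n t ^ (-(n : ℝ) / 2) := ⟨_, rfl⟩
  have hI0 : ∀ t, 0 ≤ I t := by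
    intro t
    rw [hI]
    exact integral_nonneg fun q => mul_self_nonneg _
  have hAd : ∀ t ∈ Ioo 0 T, HasDerivAt A (-(rr n t ^ (-(n : ℝ) / 2) * I t)) t := by
    intro t ht
    have hr : 0 < rr n t := hF.r0 t ht
    have h1 := (hARE n (n + 2) M (Ioo 0 T) F c χ hS t ht).2
    have h2 := A_deriv n _ _ t h1 hr
    rw [hA, ha]
    convert h2 using 2
    congr 1
    haveI : IsFiniteMeasure (muM n F c χ t) := ⟨(hmu t ht).1⟩
    have h3 : ∀ q, Hs n F ν q t * Hs n F ν q t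
        = ‖HH (n := n) F q t‖ ^ 2 - n ^ 2 / rr n t := by
      intro q
      have h4 := (hev q t ht).2.1
      unfold eN at h4
      rw [h4]
      ring
    have h5 : Integrable (fun q => ‖HH (n := n) F q t‖ ^ 2) (muM n F c χ t) :=
      ((hmu t ht).2.2 _ (slice_cont hsH ht)).1
    rw [hI]
    simp only [h3]
    rw [integral_sub h5 (integrable_const _), integral_const, smul_eq_mul]
    ring
  have hA0 : ∀ t ∈ Ioo 0 T, 0 ≤ A t := by
    intro t ht
    rw [hA]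
    have hr : 0 < rr n t := hF.r0 t ht
    have h1 := (hARE n (n + 2) M (Ioo 0 T) F c χ hS t ht).1
    rw [ha]
    positivity
  have hanti : AntitoneOn A (Ioo 0 T) := by
    refine antitoneOn_of_deriv_nonpos (convex_Ioo 0 T)
      (fun t ht => (hAd t ht).continuousAt.continuousWithinAt) ?_ ?_
    · intro t ht
      rw [interior_Ioo] at ht
      exact (hAd t ht).differentiableAt.differentiableWithinAt
    · intro t ht
      rw [interior_Ioo] at ht
      rw [(hAd t ht).deriv]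
      have hr : 0 < rr n t := hF.r0 t ht
      have := hI0 t
      have h1 : 0 ≤ rr n t ^ (-(n : ℝ) / 2) * I t := by positivity
      linarith
  -- constants
  obtain ⟨Λ', hΛ'⟩ : ∃ Λ' : ℝ, Λ' = |Λ| + 2 * n := ⟨_, rfl⟩
  have hΛ'0 : 0 < Λ' := by
    rw [hΛ']
    positivity
  obtain ⟨C1, hC1⟩ : ∃ C1 : ℝ, C1 = 2 * n * (Cn * Real.exp (Λ' / n * 2) *
    (6 * n) ^ ((n : ℝ) / 2)) := ⟨_, rfl⟩
  have hC10 : 0 < C1 := by
    rw [hC1]
    positivity
  obtain ⟨ε', hε'⟩ : ∃ ε' : ℝ, ε' = ε / C1 := ⟨_, rfl⟩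
  have hε'0 : 0 < ε' := by
    rw [hε']
    positivity
  -- the limit
  have hne : (A '' Ico t₁ T).Nonempty := ⟨A t₁, t₁, ⟨le_rfl, ht₁.2⟩, rfl⟩
  have hIco : Ico t₁ T ⊆ Ioo 0 T := fun t ht => ⟨ht₁.1.trans_le ht.1, ht.2⟩
  have hbdd : BddBelow (A '' Ico t₁ T) := by
    refine ⟨0, ?_⟩
    rintro _ ⟨t, ht, rfl⟩
    exact hA0 t (hIco ht)
  obtain ⟨_, ⟨ta, hta, rfl⟩, hta2⟩ := exists_lt_of_csInf_lt hne
    (lt_add_of_pos_right (sInf (A '' Ico t₁ T)) hε'0)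
  refine ⟨T - (T - ta) / 3, ⟨by linarith [hta.1, hta.2], by linarith [hta.2]⟩, ?_⟩
  intro t₀ ht₀ p
  obtain ⟨τ, hτ⟩ : ∃ τ : ℝ, τ = T - t₀ := ⟨_, rfl⟩
  have hτ0 : 0 < τ := by
    rw [hτ]
    linarith [ht₀.2]
  have hτ3 : ta ≤ T - 3 * τ := by
    rw [hτ]
    linarith [ht₀.1]
  have hx : T - 3 * τ ∈ Ico t₁ T := ⟨hta.1.trans hτ3, by linarith⟩
  have hy : T - 2 * τ ∈ Ico t₁ T := ⟨by linarith [hx.1], by linarith⟩
  -- mean value theorem
  obtain ⟨σ, hσ, hslope⟩ := exists_hasDerivAt_eq_slope A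
    (fun t => -(rr n t ^ (-(n : ℝ) / 2) * I t)) (a := T - 3 * τ) (b := T - 2 * τ) (by linarith)
    (fun t ht => (hAd t (hIco ⟨hx.1.trans ht.1, ht.2.trans_lt hy.2⟩)).continuousAt.continuousWithinAt)
    (fun t ht => hAd t (hIco ⟨hx.1.trans ht.1.le, ht.2.trans hy.2⟩))
  have hσJ : σ ∈ Ico t₁ T := ⟨hx.1.trans hσ.1.le, hσ.2.trans hy.2⟩
  have hlow : sInf (A '' Ico t₁ T) ≤ A (T - 2 * τ) := csInf_le hbdd ⟨_, hy, rfl⟩
  have hup : A (T - 3 * τ) ≤ A ta := hanti (hIco hta) (hIco hx) hτ3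
  have hωlt : A (T - 3 * τ) - A (T - 2 * τ) < ε' := by linarith
  have hIσ : rr n σ ^ (-(n : ℝ) / 2) * I σ < ε' / τ := by
    have h1 : rr n σ ^ (-(n : ℝ) / 2) * I σ = (A (T - 3 * τ) - A (T - 2 * τ)) / τ := by
      have h2 : (T - 2 * τ - (T - 3 * τ)) = τ := by ring
      rw [h2] at hslope
      have h3 : rr n σ ^ (-(n : ℝ) / 2) * I σ = -((A (T - 2 * τ) - A (T - 3 * τ)) / τ) := by
        rw [← hslope]
        ring
      rw [h3]
      ring
    rw [h1]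
    exact div_lt_div_of_pos_right hωlt hτ0
  -- the mean value inequality
  have hst : σ < t₀ := by
    have := hσ.2
    rw [hτ] at this
    linarith [ht₀.2]
  have hsub : Icc σ t₀ ⊆ Ioo 0 T := fun t ht =>
    ⟨(hIco hσJ).1.trans_le ht.1, ht.2.trans_lt ht₀.2⟩
  have hκ0 : 0 ≤ Λ' / (n * τ) := by positivity
  have hmain := hMV (n + 2) M (Ioo 0 T) F c χ hS (fun q t => Hs n F ν q t * Hs n F ν q t)
    (Λ' / (n * τ)) σ t₀ hsq hκ0 hst hsub (fun q t _ => mul_self_nonneg _) (by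
      intro q t ht
      have htJ := hsub ht
      have hr : 0 < rr n t := hF.r0 t htJ
      rw [(htr q t htJ).2, (hev q t htJ).2.2.2.2.1]
      have h1 : (0 : ℝ) ≤ inner ℝ (gdM n F t (fun q => Hs n F ν q t) q)
          (gdM n F t (fun q => Hs n F ν q t) q) := real_inner_self_nonneg
      have h2 : rr n t * h2N n F q t ≤ Λ := hΛ t ⟨hσJ.1.trans ht.1, htJ.2⟩ q
      have h3 : h2N n F q t + 2 * n / rr n t ≤ Λ' / rr n t := by
        rw [le_div_iff₀ hr, add_mul, div_mul_cancel₀ _ hr.ne', hΛ']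
        have := le_abs_self Λ
        linarith
      have h4 : Λ' / rr n t ≤ Λ' / (2 * n * τ) := by
        apply div_le_div_of_nonneg_left hΛ'0.le (by positivity)
        rw [hrr, hτ]
        have := ht.2
        have h5 : T - t₀ ≤ T - t := by linarith
        have h6 : (0 : ℝ) ≤ 2 * n := by positivity
        exact mul_le_mul_of_nonneg_left h5 h6
      have h7 : Λ' / (n * τ) = 2 * (Λ' / (2 * n * τ)) := by
        field_simp
      have h8 : 0 ≤ Hs n F ν q t * Hs n F ν q t := mul_self_nonneg _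
      rw [h7]
      nlinarith [mul_le_mul_of_nonneg_right (h3.trans h4) h8]) p
  -- bound of the integral
  have hμσ := hmu σ (hIco hσJ)
  haveI : IsFiniteMeasure (muM n F c χ σ) := ⟨hμσ.1⟩
  have hcont : Continuous (fun q => Hs n F ν q σ * Hs n F ν q σ) := slice_cont hsq (hIco hσJ)
  have hint : Integrable (fun q => Hs n F ν q σ * Hs n F ν q σ) (muM n F c χ σ) :=
    (hμσ.2.2 _ hcont).1
  have hle : ∫ q, Hs n F ν q σ * Hs n F ν q σ *
      Real.exp (-(‖F q σ - F p t₀‖ ^ 2 / (8 * (t₀ - σ)))) ∂muM n F c χ σ ≤ I σ := by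
    rw [hI]
    refine integral_mono_of_nonneg (Eventually.of_forall fun q => ?_) hint
      (Eventually.of_forall fun q => ?_)
    · exact mul_nonneg (mul_self_nonneg _) (Real.exp_pos _).le
    · have h1 : Real.exp (-(‖F q σ - F p t₀‖ ^ 2 / (8 * (t₀ - σ)))) ≤ 1 := by
        rw [Real.exp_le_one_iff]
        have h2 : 0 ≤ ‖F q σ - F p t₀‖ ^ 2 / (8 * (t₀ - σ)) := by
          apply div_nonneg (by positivity)
          linarith
        linarith
      exact mul_le_of_le_one_right (mul_self_nonneg _) h1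
  have hstτ : τ ≤ t₀ - σ ∧ t₀ - σ ≤ 2 * τ := by
    constructor
    · have := hσ.2
      rw [hτ] at this ⊢
      linarith
    · have := hσ.1
      rw [hτ] at this ⊢
      linarith
  have hpow : (t₀ - σ) ^ (-(n : ℝ) / 2) ≤ τ ^ (-(n : ℝ) / 2) := by
    apply Real.rpow_le_rpow_of_nonpos hτ0 hstτ.1
    have : (0 : ℝ) ≤ n / 2 := by positivity
    linarith
  have hexp : Real.exp (Λ' / (n * τ) * (t₀ - σ)) ≤ Real.exp (Λ' / n * 2) := by
    apply Real.exp_le_exp.2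
    have h1 : Λ' / (n * τ) * (t₀ - σ) ≤ Λ' / (n * τ) * (2 * τ) :=
      mul_le_mul_of_nonneg_left hstτ.2 hκ0
    have h2 : Λ' / (n * τ) * (2 * τ) = Λ' / n * 2 := by
      field_simp
    linarith
  have hrσ : 0 < rr n σ := hF.r0 σ (hIco hσJ)
  have hrσle : rr n σ ≤ 6 * n * τ := by
    rw [hrr]
    have h1 : T - σ ≤ 3 * τ := by linarith [hσ.1]
    have h2 : (0 : ℝ) ≤ 2 * n := by positivity
    nlinarith [mul_le_mul_of_nonneg_left h1 h2]
  have hIle : I σ ≤ (6 * n) ^ ((n : ℝ) / 2) * τ ^ ((n : ℝ) / 2) * (ε' / τ) := by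
    have h1 : I σ = rr n σ ^ ((n : ℝ) / 2) * (rr n σ ^ (-(n : ℝ) / 2) * I σ) := by
      rw [← mul_assoc, ← Real.rpow_add hrσ]
      have : (n : ℝ) / 2 + -(n : ℝ) / 2 = 0 := by ring
      rw [this, Real.rpow_zero, one_mul]
    rw [h1, ← Real.mul_rpow (by positivity) hτ0.le]
    have h2 : rr n σ ^ ((n : ℝ) / 2) ≤ (6 * n * τ) ^ ((n : ℝ) / 2) :=
      Real.rpow_le_rpow hrσ.le hrσle (by positivity)
    have h3 : 0 ≤ rr n σ ^ (-(n : ℝ) / 2) * I σ :=
      mul_nonneg (Real.rpow_nonneg hrσ.le _) (hI0 σ)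
    exact mul_le_mul h2 hIσ.le h3 (by positivity)
  -- conclusion
  have hτpow : τ ^ (-(n : ℝ) / 2) * τ ^ ((n : ℝ) / 2) = 1 := by
    rw [← Real.rpow_add hτ0]
    have : -(n : ℝ) / 2 + (n : ℝ) / 2 = 0 := by ring
    rw [this, Real.rpow_zero]
  have hfin : Hs n F ν p t₀ * Hs n F ν p t₀
      ≤ Cn * Real.exp (Λ' / n * 2) * (6 * n) ^ ((n : ℝ) / 2) * (ε' / τ) := by
    have h0 : 0 ≤ ∫ q, Hs n F ν q σ * Hs n F ν q σ *
        Real.exp (-(‖F q σ - F p t₀‖ ^ 2 / (8 * (t₀ - σ)))) ∂muM n F c χ σ :=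
      integral_nonneg fun q => mul_nonneg (mul_self_nonneg _) (Real.exp_pos _).le
    calc Hs n F ν p t₀ * Hs n F ν p t₀
        ≤ Cn * Real.exp (Λ' / (n * τ) * (t₀ - σ)) * (t₀ - σ) ^ (-(n : ℝ) / 2) *
          ∫ q, Hs n F ν q σ * Hs n F ν q σ *
            Real.exp (-(‖F q σ - F p t₀‖ ^ 2 / (8 * (t₀ - σ)))) ∂muM n F c χ σ := hmain
      _ ≤ Cn * Real.exp (Λ' / n * 2) * τ ^ (-(n : ℝ) / 2) *
          ((6 * n) ^ ((n : ℝ) / 2) * τ ^ ((n : ℝ) / 2) * (ε' / τ)) := by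
          apply mul_le_mul _ (hle.trans hIle) h0 (by positivity)
          apply mul_le_mul (mul_le_mul_of_nonneg_left hexp hCn.le) hpow
          · apply Real.rpow_nonneg
            linarith [hstτ.1]
          · positivity
      _ = Cn * Real.exp (Λ' / n * 2) * (6 * n) ^ ((n : ℝ) / 2) * (ε' / τ) *
          (τ ^ (-(n : ℝ) / 2) * τ ^ ((n : ℝ) / 2)) := by ring
      _ = Cn * Real.exp (Λ' / n * 2) * (6 * n) ^ ((n : ℝ) / 2) * (ε' / τ) := by
          rw [hτpow, mul_one]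
  have ht₀J : t₀ ∈ Ioo 0 T := hsub ⟨hst.le, le_rfl⟩
  rw [(hev p t₀ ht₀J).2.1, hrr, ← hτ, pow_two]
  have h9 : 2 * n * τ * (Hs n F ν p t₀ * Hs n F ν p t₀)
      ≤ 2 * n * τ * (Cn * Real.exp (Λ' / n * 2) * (6 * n) ^ ((n : ℝ) / 2) * (ε' / τ)) :=
    mul_le_mul_of_nonneg_left hfin (by positivity)
  have h10 : 2 * n * τ * (Cn * Real.exp (Λ' / n * 2) * (6 * n) ^ ((n : ℝ) / 2) * (ε' / τ))
      = C1 * ε' := by
    rw [hC1]
    field_simp
  have h11 : C1 * ε' = ε := by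
    rw [hε']
    field_simp
  linarith

end Helper97.HSF
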